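import Mathlib
import Pool.Agent.N988.EP.Defs

/-!
# The spectral sample and the pivotal set of the crossing of hierarchical lattices: definitions

An edge `e` is open if `w e = false` (weight `0` in `Pool.Agent.N988.EP.Defs`), which has the
probability `p` under `iid (coin (1 - p)) b n`. The ends of `H n` are joined by open edges if and
only if `across w = 0`.
-/

open MeasureTheory
open Pool.Agent.N988.EA Pool.Agent.N988.EC Pool.Agent.N988.EP

namespace Pool.Agent.N988.ES

noncomputable section

/-- `1` if the two ends of `H n` are joined by open edges, else `-1`. -/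
def cross {b n : ℕ} (w : Edge b n → Bool) : ℝ := if across w = 0 then 1 else -1

/-- The normalised coordinate: mean `0` and variance `1` if `x` is `false` with probability `p`. -/
def chi (p : ℝ) (x : Bool) : ℝ := if x then -Real.sqrt (p / (1 - p)) else Real.sqrt ((1 - p) / p)

/-- The Fourier-Walsh coefficient of `cross` for the set `S` of edges. -/
def coef {b n : ℕ} (p : ℝ) (S : Finset (Edge b n)) : ℝ :=
  ∫ w, cross w * ∏ e ∈ S, chi p (w e) ∂(iid (coin (1 - p)) b n)

/-- The probability that the spectral sample is `S`. -/
def spec {b n : ℕ} (p : ℝ) (S : Finset (Edge b n)) : ℝ := coef p S ^ 2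

open Classical in
/-- The pivotal set: the edges whose change changes `cross`. -/
def piv {b n : ℕ} (w : Edge b n → Bool) : Set (Edge b n) :=
  {e | cross (Function.update w e (!w e)) ≠ cross w}

/-- The part of `S` in the half `s` of the branch `i`. -/
def cell {b n : ℕ} (S : Set (Edge b (n + 1))) (i : Fin b) (s : Bool) : Set (Edge b n) :=
  {e | ((i, s, e) : Edge b (n + 1)) ∈ S}

/-- In one of the cells of the `m` largest scales (among them `H (n + m)` itself) `S` meets both
halves of a branch and another branch. -/
def Fork {b n : ℕ} : (m : ℕ) → Set (Edge b (n + m)) → Prop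
  | 0, _ => False
  | m + 1, S => (∃ (i j : Fin b) (s : Bool), j ≠ i ∧ (cell S i false).Nonempty ∧
      (cell S i true).Nonempty ∧ (cell S j s).Nonempty) ∨ ∃ (i : Fin b) (s : Bool),
        Fork m (cell S i s)

end

end Pool.Agent.N988.ES
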