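import Mathlib
import Pool.Agent.N988.ES.Defs
import Pool.Agent.N988.EP.Main

/-!
# The spectral sample and the pivotal set: statements of the parts

Available from `Pool/Agent/N988/EP/Main.lean`: `k_CUR`, `k_UP`, `k_LOW` (in particular
`across w = Y n w`), `k_LAW`, and `Pool.Agent.N283.EP.t_FIX`, `Pool.Agent.N942.EP.t_FP`.
-/

open MeasureTheory Set Filter
open scoped Topology
open Pool.Agent.N988.EA Pool.Agent.N988.EC Pool.Agent.N988.EP

namespace Pool.Agent.N988.ES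

noncomputable section

/-- The part of a finite set `S` in the half `s` of the branch `i`. -/
def fcell {b n : ℕ} (S : Finset (Edge b (n + 1))) (i : Fin b) (s : Bool) : Finset (Edge b n) :=
  S.preimage (fun e => ((i, s, e) : Edge b (n + 1))) (fun _ _ _ _ h =>
    congrArg (fun q : Fin b × Bool × Edge b n => q.2.2) h)

/-- The coefficient of the indicator of the crossing. -/
def xc {b n : ℕ} (p : ℝ) (S : Finset (Edge b n)) : ℝ :=
  ∫ w, (if across w = 0 then 1 else 0) * ∏ e ∈ S, chi p (w e) ∂(iid (coin (1 - p)) b n)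

open Classical in
/-- Q1, S_COMP (composition). Proof: the indicator of the crossing of `H (n + 1)` is
`1 - ∏ i, (1 - X (i, false) * X (i, true))` (`across = Y`), the halves are independent (`k_CUR`,
`MeasureTheory.integral_fintype_prod_eq_prod`), and `∏ e ∈ S` is the product over the halves. -/
def S_COMP : Prop := ∀ (b n : ℕ), 1 ≤ b → ∀ p : ℝ, 0 < p → p < 1 →
  (xc p (∅ : Finset (Edge b 0)) = p ∧
    xc p (Finset.univ : Finset (Edge b 0)) = Real.sqrt (p * (1 - p))) ∧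
  ∀ S : Finset (Edge b (n + 1)), xc p S = (if S = ∅ then 1 else 0) -
    ∏ i : Fin b, ((if fcell S i false = ∅ ∧ fcell S i true = ∅ then 1 else 0) -
      xc p (fcell S i false) * xc p (fcell S i true))

/-- Q2, S_PARS (Parseval; from `S_COMP` by induction, or directly). -/
def S_PARS : Prop := ∀ (b n : ℕ), 2 ≤ b → ∀ p : ℝ, 0 < p → p < 1 → 1 - (1 - p ^ 2) ^ b = p →
  xc p (∅ : Finset (Edge b n)) = p ∧ ∑ S : Finset (Edge b n), xc p S ^ 2 = p

open Classical in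
/-- The sum over the nonempty sets without fork. -/
def uf (b : ℕ) (p : ℝ) (n m : ℕ) : ℝ :=
  ∑ S : Finset (Edge b (n + m)), (if S.Nonempty ∧ ¬ Fork m (S : Set (Edge b (n + m))) then
      xc p S ^ 2 else 0)

/-- Q3a, S_R1 (from `S_COMP`, `S_PARS`): see the doc of `S_RATE`. The sum over `S` is the sum over
the families of its parts `fcell S i s` (an equivalence
`Finset (Edge b (n + 1)) ≃ (Fin b × Bool → Finset (Edge b n))`), `Finset.prod_univ_sum`; drop the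
condition that `S` has no fork at the top, except for the `S` which meet exactly the halves
`(0, false), (0, true), (1, false)`. -/
def S_R1 : Prop := ∀ (b : ℕ), 2 ≤ b → ∀ p : ℝ, 0 < p → p < 1 → 1 - (1 - p ^ 2) ^ b = p →
  ∀ n m : ℕ, uf b p n (m + 1) ≤
    ((1 - p ^ 2) ^ 2 + 2 * p ^ 2 * uf b p n m + uf b p n m ^ 2) ^ b - ((1 - p ^ 2) ^ 2) ^ b -
      p ^ 2 * ((1 - p ^ 2) ^ 2) ^ (b - 2) * uf b p n m ^ 3

/-- Q3b, S_R2 (real analysis): see the doc of `S_RATE`. -/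
def S_R2 : Prop := ∀ (b : ℕ), 2 ≤ b → ∀ p : ℝ, 0 < p → p < 1 → 1 - (1 - p ^ 2) ^ b = p →
  ∃ r : ℝ, 0 ≤ r ∧ r < 1 ∧ ∀ u : ℝ, 0 ≤ u → u ≤ p * (1 - p) →
    ((1 - p ^ 2) ^ 2 + 2 * p ^ 2 * u + u ^ 2) ^ b - ((1 - p ^ 2) ^ 2) ^ b -
      p ^ 2 * ((1 - p ^ 2) ^ 2) ^ (b - 2) * u ^ 3 ≤ r * u

open Classical in
/-- Q3, S_RATE (from `S_R1`, `S_R2`, `S_PARS`). Proof: let `u m` be the sum over `S ⊆ H (n + m)`,
nonempty without fork, of `xc S ^ 2`; `v = p (1 - p)` is the sum over all nonempty `S`, `u m ≤ v`.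
With `a = (1 - p ^ 2) ^ 2` the sum over the families of the parts of `S` gives
`u (m + 1) ≤ (a + 2 p² u + u²) ^ b - a ^ b - p² a ^ (b - 2) u³`, `u = u m` (the last term are the `S`
which meet exactly the halves `(0, false), (0, true), (1, false)`; they have a fork). As
`a + 2 p² v + v² = 1 - p²`, the quotient `h u = ((a + 2 p² u + u²) ^ b - a ^ b) / u` is increasing
(a polynomial with coefficients at least `0`) with `h v = 1`; so `u (m + 1) ≤ r u m` with `r` the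
maximum of `h u - p² a ^ (b - 2) u²` on `[0, v]`, which is less than `1`. -/
def S_RATE : Prop := ∀ (b : ℕ), 2 ≤ b → ∀ p : ℝ, 0 < p → p < 1 → 1 - (1 - p ^ 2) ^ b = p →
  ∃ r : ℝ, 0 ≤ r ∧ r < 1 ∧ ∀ n m : ℕ,
    ∑ S : Finset (Edge b (n + m)), (if S.Nonempty ∧ ¬ Fork m (S : Set (Edge b (n + m))) then
      xc p S ^ 2 else 0) ≤ p * (1 - p) * r ^ m

/-- Q4, S_PIV (deterministic, from `across = Y`): recursive description of the pivotal set. -/
def S_PIV : Prop := ∀ (b : ℕ), 1 ≤ b →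
  (∀ (w : Edge b 0 → Bool) (e : Edge b 0), e ∈ piv w) ∧
  (∀ (n : ℕ) (w : Edge b n → Bool), cross w = 1 ∨ cross w = -1) ∧
  (∀ (n : ℕ) (w : Edge b (n + 1) → Bool), cross w = 1 ↔
    ∃ i, cross (sub w i false) = 1 ∧ cross (sub w i true) = 1) ∧
  ∀ (n : ℕ) (w : Edge b (n + 1) → Bool) (i : Fin b) (s : Bool) (e : Edge b n),
    ((i, s, e) : Edge b (n + 1)) ∈ piv w ↔ e ∈ piv (sub w i s) ∧ cross (sub w i (!s)) = 1 ∧
      ∀ j, j ≠ i → ¬ (cross (sub w j false) = 1 ∧ cross (sub w j true) = 1)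

/-- Q5, S_NF (from `S_PIV`, induction on `m`): the pivotal set has no fork. If it meets both halves
of the branch `i` then both are crossed, and no edge of another branch is pivotal. -/
def S_NF : Prop := ∀ (b : ℕ), 1 ≤ b → ∀ (n m : ℕ) (w : Edge b (n + m) → Bool), ¬ Fork m (piv w)

/-- Q6, S_PV (from `S_PIV`): the pivotal set is not empty with a probability bounded below. Proof:
`α n = P (cross w = 1, piv w ≠ ∅)` satisfies `α 0 = p` and
`α (n + 1) = b (1 - p²) ^ (b - 1) (p² - (p - α n)²) = l * α n * (1 - α n / (2 p))` with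
`l = 2 b p (1 - p²) ^ (b - 1)`, so `α n ≥ min p (2 p (1 - 1 / l))` (the map is increasing on
`[0, p]`). `l > 1` because `x ↦ (b - 1) log (1 - x) + b log (1 + x)` is concave with zeros `0`, `p`
(compare `t_FIX` of helper283). -/
def S_PV : Prop := ∀ (b : ℕ), 2 ≤ b → ∀ p : ℝ, 0 < p → p < 1 → 1 - (1 - p ^ 2) ^ b = p →
  ∃ c : ℝ, 0 < c ∧ ∀ n : ℕ, c ≤ (iid (coin (1 - p)) b n).real {w | (piv w).Nonempty}

open Classical in
/-- The result. -/
def S_SP : Prop := ∀ (b : ℕ), 2 ≤ b → ∃ pc : ℝ, 0 < pc ∧ pc < 1 ∧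
  (∀ p : ℝ, 0 ≤ p → p < pc →
    Tendsto (fun n : ℕ => (iid (coin (1 - p)) b n).real {w | across w = 0}) atTop (𝓝 0)) ∧
  (∀ p : ℝ, pc < p → p ≤ 1 →
    Tendsto (fun n : ℕ => (iid (coin (1 - p)) b n).real {w | across w = 0}) atTop (𝓝 1)) ∧
  (∃ c : ℝ, 0 < c ∧ ∀ n : ℕ, c ≤ (iid (coin (1 - pc)) b n).real {w | (piv w).Nonempty}) ∧
  (∀ (n m : ℕ) (w : Edge b (n + m) → Bool), ¬ Fork m (piv w)) ∧
  (∀ n : ℕ, ∑ S : Finset (Edge b n), spec pc S = 1 ∧
    spec pc (∅ : Finset (Edge b n)) = (2 * pc - 1) ^ 2) ∧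
  ∃ r : ℝ, 0 ≤ r ∧ r < 1 ∧ ∀ n m : ℕ,
    ∑ S : Finset (Edge b (n + m)), (if S.Nonempty ∧ ¬ Fork m (S : Set (Edge b (n + m))) then
      spec pc S else 0) ≤ r ^ m

end

end Pool.Agent.N988.ES
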