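import Pool.Agent.N988.ES.Stm
import Pool.Agent.N137.ES_COMP
import Pool.Agent.N390.ES_PARS
import Pool.Agent.N362.ES_R1
import Pool.Agent.N494.ES_R2
import Pool.Agent.N349.ES_PIV
import Pool.Agent.N564.ES_NF
import Pool.Agent.N952.ES_PV
import Pool.Agent.N285.ES_SP

/-!
# The spectral sample and the pivotal set on hierarchical lattices: assembly
-/

namespace Pool.Agent.N988.ES

theorem k_COMP : S_COMP := Pool.Agent.N137.ES.t_COMP
theorem k_PARS : S_PARS := Pool.Agent.N390.ES.t_PARS k_COMP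
theorem k_RATE : S_RATE :=
  Pool.Agent.N285.ES.t_RATE (Pool.Agent.N362.ES.t_R1 k_COMP k_PARS) Pool.Agent.N494.ES.t_R2 k_PARS
theorem k_PIV : S_PIV := Pool.Agent.N349.ES.t_PIV
theorem k_SP : S_SP :=
  Pool.Agent.N285.ES.t_SP k_PARS k_RATE (Pool.Agent.N564.ES.t_NF k_PIV)
    (Pool.Agent.N952.ES.t_PV k_PIV)

end Pool.Agent.N988.ES
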